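import Pool.Agent.H58.FN.Targets

/-!
# FR3: the frame (MP_6a7a6f_gt)
-/

set_option autoImplicit false

open Topology

namespace Pool.Agent.H75.FN

open Pool.Agent.H59 Pool.Agent.H48.FR Pool.Agent.H58.FL Pool.Agent.H30.FA Pool.Agent.H58.FM
open Pool.Agent.H58.FN

section

variable {E J X : Type} [NormedAddCommGroup E] [InnerProductSpace ℂ E] [Fintype J]
  {κ δ : ℝ} {x : J → E} {t : X → J → ℝ}

theorem FR3_down_t : Down (Kt t δ) := fun _ hS _ hT u hu v hv => hS u (hT hu) v (hT hv)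

theorem FR3_down1 : Down (K1 x t δ) := fun S hS T hT =>
  ⟨FR3_down_t S hS.1 T hT, fun u hu => hS.2 u (hT hu)⟩

theorem FR3_down2 : Down (K2 x t δ) := fun S hS T hT =>
  ⟨FR3_down_t S hS.1 T hT, fun u hu => hS.2 u (hT hu)⟩

theorem FR3_hp {a b : ℝ} (hab : b ≤ a) {w : J → ℝ} (h : HP x a w) : HP x b w := by
  obtain ⟨p, hp, hw⟩ := h
  exact ⟨p, hp, fun i => hab.trans_lt (hw i)⟩

theorem FR3_hp' {a b c : ℝ} (hab : c + b ≤ a) {w w' : J → ℝ} (hw' : ∀ j, w j ≤ w' j + c)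
    (h : HP x a w) : HP x b w' := by
  obtain ⟨p, hp, hw⟩ := h
  exact ⟨p, hp, fun i => by have h1 := hw i; have h2 := hw' (p i); linarith⟩

theorem FR3_up (σ : Sel κ x t δ) (f g h : X) :
    up (fun f => x (σ.v f)) f g h = UU x σ.vv f g h := by
  simp [up, UU, pa, Sel.vv]

theorem FR3_d2 (v : X → E) (f g h k : X) :
    d2 (up v) f g h k = mn (v f) (v g) (v h) (v k) := by
  unfold d2 up mn
  ring

end

theorem pf_FR3 (hGLU : T_GLU) (hINT : Pool.Agent.H58.FN.T_INT) (hCLQ : T_CLQ) (hFM4 : T_FM4) (hFM6 : T_FM6)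
    (hFOV : T_FOV) : T_FR3 := by
  intro E J X _ _ _ κ δ x t σ
  have hδ := σ.d_pos
  have hq : ∀ S ∈ K2 x t δ, ∀ f ∈ S, ∀ i, δ < t f (σ.q f i) := by
    intro S hS f hf i
    have h1 := (σ.q_max f (hS.2 f hf)).2.1 i
    linarith
  have hh : ∀ f, HP x (4 * δ) (t f) → ∀ i, δ < t f (σ.p f i) := by
    intro f hf i
    have h1 := (σ.p_max f hf).2.1 i
    linarith
  have hv : ∀ f, δ < t f (σ.v f) := fun f => by
    have h1 := σ.d_small f
    linarith
  have hin := fun (S : Set X) (hS : S ∈ Kt t δ) => (hCLQ E J X κ δ x t σ S hS).2.1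
  refine ⟨FR3_down1, FR3_down2, fun S hS => (hCLQ E J X κ δ x t σ S hS).2.2.2.1, ?_, ?_⟩
  · intro S hS f hf g hg h hh k hk
    rw [FR3_d2]
    exact (hCLQ E J X κ δ x t σ S hS.1).2.2.2.2.2 hS f hf g hg h hh k hk
  obtain ⟨c, η', θ, hc, hcP, hcQ, hcθ⟩ := hGLU X (K2 x t δ) (fun f => ¬ HP x (12 * δ) (t f))
    (fun f => HP x (4 * δ) (t f))
    (fun S hS => by
      rcases (hCLQ E J X κ δ x t σ S hS.1).2.2.2.2.1 with h | h
      · exact Or.inl h
      · exact Or.inr fun u hu => FR3_hp (by linarith) (h u hu))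
    FR3_down2 (UU x σ.q) (UU x σ.hh) (EE x σ.q σ.hh)
    (fun f g => 4 * ∑ i, ∑ j, th (x (σ.q f i)) (x (σ.q g j)))
    (fun f g => 64 * th (x (σ.hh f 0)) (x (σ.hh g 0)))
    (fun f => 16 * ∑ i, th (x (σ.q f i)) (x (σ.hh f 0)))
    (fun S hS hP f hf g hg h hh k hk =>
      (hFM4 E J X κ δ x t σ S ⟨f, hf⟩ hS hP).1 f hf g hg h hh k hk)
    (fun S hS hQ f hf g hg h hh k hk =>
      (hFM6 E J X κ δ x t σ S ⟨f, hf⟩ hS.1 hQ).1 f hf g hg h hh k hk)
    (fun S hS hPQ f hf g hg h hh =>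
      (hFOV E J X κ δ x t σ S ⟨f, hf⟩ hS (fun u hu => (hPQ u hu).1)
        (fun u hu => (hPQ u hu).2)).2.1 f hf g hg h hh)
    (fun S hS hP => (hINT E J X x σ.q σ.hh S).1 fun f hf g hg i j =>
      (hin S hS.1 f hf g hg _ _ (hq S hS f hf i) (hq S hS g hg j)).2)
    (fun S hS hQ f hf g hg k hk => ((hINT E J X x σ.q σ.hh S).2.1 (fun f hf g hg =>
      (hin S hS.1 f hf g hg _ _ (hh f (hQ f hf) 5) (hh g (hQ g hg) 5)).2) f hf g hg k hk).2)
    (fun S hS hPQ => (hINT E J X x σ.q σ.hh S).2.2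
      (fun f hf g hg i j => (hin S hS.1 f hf g hg _ _ (hq S hS f hf i) (hq S hS g hg j)).2)
      (fun f hf g hg i => (hin S hS.1 f hf g hg _ _ (hq S hS f hf i)
        (hh g (hPQ g hg).2 5)).2)
      (fun f hf g hg => (hin S hS.1 f hf g hg _ _ (hh f (hPQ f hf).2 5)
        (hh g (hPQ g hg).2 5)).2))
  classical
  refine ⟨c, fun f g => th (x (σ.vv f 0)) (x (σ.vv g 0)), θ,
    ![fun f g => EE x σ.vv σ.q f g + σ.x1 f g,
      fun f g => if HP x (8 * δ) (t f) then EE x σ.vv σ.hh f g + σ.x2 f g - η' f g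
        else EE x σ.vv σ.q f g,
      fun f g => EE x σ.vv σ.hh f g - η' f g], hc, ?_, ?_, ?_⟩
  · intro S hS f hf g hg h hh
    rw [FR3_up]
    exact ((hINT E J X x σ.q σ.vv S).2.1 (fun f hf g hg =>
      (hin S hS.1.1 f hf g hg _ _ (hv f) (hv g)).2) f hf g hg h hh).1
  · intro S hS
    exact hcθ S hS.2
  · intro S hS hne
    by_cases hP : ∀ u ∈ S, ¬ HP x (12 * δ) (t u)
    · have h4 := hFM4 E J X κ δ x t σ S hne hS.2 hP
      by_cases hD4 : σ.D4 S
      · refine ⟨0, fun f hf g hg h hh => ?_⟩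
        rw [FR3_up, hcP S hS.2 hP f hf g hg h hh]
        exact h4.2.2 hS.1 hD4 f hf g hg h hh
      · by_cases hQ : ∀ u ∈ S, HP x (4 * δ) (t u)
        · have h6 := hFM6 E J X κ δ x t σ S hne hS.2.1 hQ
          have hD6 : ¬ σ.D6 S := fun h =>
            hD4 ((hFOV E J X κ δ x t σ S hne hS.2 hP hQ).2.2 h)
          refine ⟨2, fun f hf g hg h hh => ?_⟩
          have e1 := h6.2.1 hD6 f hf g hg h hh
          rw [FR3_up, hcQ S hS.2 hQ f hf g hg h hh]
          show _ = d1 (fun f g => EE x σ.vv σ.hh f g - η' f g) f g h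
          unfold d1 at e1 ⊢
          linarith
        · push Not at hQ
          obtain ⟨f1, hf1, hf1'⟩ := hQ
          have hno : ∀ f ∈ S, ¬ HP x (8 * δ) (t f) := by
            intro f hf h8
            refine hf1' (FR3_hp' (c := δ) (by linarith)
              (fun j => (hCLQ E J X κ δ x t σ S hS.2.1).1 f hf f1 hf1 j) h8)
          refine ⟨1, fun f hf g hg h hh => ?_⟩
          rw [FR3_up, hcP S hS.2 hP f hf g hg h hh, h4.2.1 hD4 f hf g hg h hh]
          show _ = d1 (fun f g => if HP x (8 * δ) (t f) then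
            EE x σ.vv σ.hh f g + σ.x2 f g - η' f g else EE x σ.vv σ.q f g) f g h
          unfold d1
          simp only [hno f hf, hno g hg, if_false]
    · have h11 : ∀ f ∈ S, HP x (11 * δ) (t f) :=
        (hCLQ E J X κ δ x t σ S hS.2.1).2.2.2.2.1.resolve_left hP
      have hQ : ∀ u ∈ S, HP x (4 * δ) (t u) := fun u hu => FR3_hp (by linarith) (h11 u hu)
      have h8 : ∀ u ∈ S, HP x (8 * δ) (t u) := fun u hu => FR3_hp (by linarith) (h11 u hu)
      have h6 := hFM6 E J X κ δ x t σ S hne hS.2.1 hQ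
      by_cases hD6 : σ.D6 S
      · refine ⟨1, fun f hf g hg h hh => ?_⟩
        have e1 := h6.2.2 hS.1 hD6 f hf g hg h hh
        rw [FR3_up, hcQ S hS.2 hQ f hf g hg h hh]
        show _ = d1 (fun f g => if HP x (8 * δ) (t f) then
          EE x σ.vv σ.hh f g + σ.x2 f g - η' f g else EE x σ.vv σ.q f g) f g h
        unfold d1 at e1 ⊢
        simp only [h8 f hf, h8 g hg, if_true]
        linarith
      · refine ⟨2, fun f hf g hg h hh => ?_⟩
        have e1 := h6.2.1 hD6 f hf g hg h hh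
        rw [FR3_up, hcQ S hS.2 hQ f hf g hg h hh]
        show _ = d1 (fun f g => EE x σ.vv σ.hh f g - η' f g) f g h
        unfold d1 at e1 ⊢
        linarith

end Pool.Agent.H75.FN
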